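import Pool.Agent.Run7.h668.TK.Iface

/-!
# Piece CMP of the project TK: comparison of two signed subset sums
-/

set_option autoImplicit false

namespace Pool.Agent.Run7.h404.TK

open Pool.Agent.Run7.h668.TK Polynomial

theorem ssum_mul (c : ℚ) (l : List ℕ) (F : ℕ → ℕ → ℚ) :
    c * ssum l F = ssum l (fun s b => c * F s b) := by
  induction l generalizing F with
  | nil => rfl
  | cons a l ih =>
    simp only [ssum]
    rw [mul_sub, ih, ih]

theorem ssum_congr (l : List ℕ) (F G : ℕ → ℕ → ℚ)
    (h : ∀ S : List ℕ, List.Sublist S l → F S.length S.sum = G S.length S.sum) :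
    ssum l F = ssum l G := by
  induction l generalizing F G with
  | nil => exact h [] (List.Sublist.refl _)
  | cons a l ih =>
    simp only [ssum]
    rw [ih F G (fun S hS => h S (hS.cons a)), ih (fun s b => F (s + 1) (b + a))
      (fun s b => G (s + 1) (b + a)) ?_]
    intro S hS
    have h1 := h (a :: S) (hS.cons_cons a)
    rw [List.length_cons, List.sum_cons, add_comm a] at h1
    exact h1

theorem sub_one {S l : List ℕ} (h : List.Sublist S l) (hl : l.length ≤ S.length + 1) :
    S = l ∨ ∃ a ∈ l, S.sum + a = l.sum := by
  induction h with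
  | slnil => exact Or.inl rfl
  | @cons S l a h ih =>
    right
    have h1 : S.length = l.length := by
      have := h.length_le
      rw [List.length_cons] at hl
      omega
    have h2 : S = l := h.eq_of_length h1
    refine ⟨a, List.mem_cons_self, ?_⟩
    rw [h2, List.sum_cons, add_comm]
  | @cons_cons S l a h ih =>
    rcases ih (by simpa using hl) with h1 | ⟨b, hb, h1⟩
    · left
      rw [h1]
    · right
      refine ⟨b, List.mem_cons_of_mem _ hb, ?_⟩
      rw [List.sum_cons, List.sum_cons, add_assoc, h1]

theorem len_le_sum (S : List ℕ) (h : ∀ a ∈ S, 1 ≤ a) : S.length ≤ S.sum := by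
  induction S with
  | nil => simp
  | cons a S ih =>
    rw [List.length_cons, List.sum_cons]
    have h1 := h a List.mem_cons_self
    have h2 := ih (fun b hb => h b (List.mem_cons_of_mem _ hb))
    omega

theorem feval (n s : ℕ) (x : ℚ) :
    (fpoly n s).eval x = ∏ i ∈ Finset.range (n - 2), (x - s + ((i : ℚ) + 1)) := by
  unfold fpoly
  rw [Polynomial.eval_prod]
  refine Finset.prod_congr rfl fun i _ => ?_
  simp

theorem t_CMP : S_CMP := by
  intro l N q hl hN hq hpos hsub
  rw [ssum_mul]
  apply ssum_congr
  intro S hS
  have hn0 : l.sum ≥ q := by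
    obtain ⟨a, ha⟩ : ∃ a, a ∈ l := List.exists_mem_of_length_pos (by omega)
    have := hsub a ha
    omega
  have hSle := len_le_sum S (fun a ha => hpos a (hS.subset ha))
  have hbig : l.length ≤ S.length + 1 → q ≤ S.sum := by
    intro h
    rcases sub_one hS h with h1 | ⟨a, ha, h1⟩
    · rw [h1]; exact hn0
    · have := hsub a ha
      omega
  have hlen := hS.length_le
  have hzero : S.length = 0 → S.sum = 0 := by
    intro h
    rw [List.length_eq_zero_iff.1 h]
    rfl
  generalize S.length = s at *
  generalize S.sum = b at *
  by_cases hbq : b < q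
  · rw [if_pos hbq]
    have hs2 : s + 2 ≤ l.length := by
      by_contra hc
      have := hbig (by omega)
      omega
    obtain ⟨v, hv⟩ : ∃ v, v = N * (q - b) := ⟨_, rfl⟩
    have hv1 : 1 ≤ v := by
      rw [hv]
      exact Nat.mul_pos hN (by omega)
    have hqv : q * N = N * b + v := by
      rw [hv, ← Nat.mul_add, Nat.add_sub_cancel' hbq.le, Nat.mul_comm]
    have hvq : (N : ℚ) * ((q - b : ℕ) : ℚ) = (v : ℚ) := by
      rw [hv]
      push_cast
      rfl
    rw [hvq, feval]
    by_cases hsv : s ≤ v
    · rw [if_pos (by omega)]
      have h1 : q * N - N * b - s = v - s := by omega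
      rw [h1]
      obtain ⟨w, rfl⟩ := Nat.exists_eq_add_of_le hsv
      have h2 : s + w - s = w := by omega
      rw [h2]
      have h3 : ∀ i ∈ Finset.range (l.length - 2),
          (((s + w : ℕ) : ℚ) - s + ((i : ℚ) + 1)) = (((w + 1) + i : ℕ) : ℚ) := by
        intro i _
        push_cast
        ring
      rw [Finset.prod_congr rfl h3, ← Nat.cast_prod, ← Nat.ascFactorial_eq_prod_range,
        Nat.ascFactorial_eq_factorial_mul_choose]
      push_cast
      rfl
    · rw [if_neg (by omega), mul_zero]
      symm
      apply Finset.prod_eq_zero (i := s - v - 1)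
      · rw [Finset.mem_range]
        omega
      · have h1 : ((s - v - 1 : ℕ) : ℚ) + 1 = (s : ℚ) - v := by
          have : (s - v - 1) + 1 + v = s := by omega
          have h2 : (((s - v - 1) + 1 + v : ℕ) : ℚ) = s := by rw [this]
          push_cast at h2
          linarith
        rw [h1]
        ring
  · rw [if_neg hbq, if_neg, mul_zero]
    intro hc
    have h1 : q * N ≤ N * b := by
      rw [Nat.mul_comm]
      exact Nat.mul_le_mul_left N (by omega)
    have h2 : s = 0 := by omega
    have h3 := hzero h2
    omega

end Pool.Agent.Run7.h404.TK
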