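import Pool.Agent.Run7.h668.TK.Iface

/-!
# Piece CN2 of the project TK: differences of the coefficients as signed subset sums
-/

set_option autoImplicit false

namespace Pool.Agent.Run7.h404.TK

open Pool.Agent.Run7.h668.TK

/-- coefficients of the powers of `1 / (1 - z)` -/
def cc : ℕ → ℤ → ℚ
  | 0, t => if t = 0 then 1 else 0
  | r + 1, t => if 0 ≤ t then (((t.toNat + r).choose r : ℕ) : ℚ) else 0

theorem cc_neg (r : ℕ) (t : ℤ) (h : t < 0) : cc r t = 0 := by
  cases r with
  | zero =>
    simp only [cc]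
    rw [if_neg (by omega)]
  | succ r =>
    simp only [cc]
    rw [if_neg (by omega)]

theorem cc_sub (r : ℕ) (t : ℤ) : cc (r + 1) t - cc (r + 1) (t - 1) = cc r t := by
  rcases lt_trichotomy t 0 with h | h | h
  · rw [cc_neg _ t h, cc_neg _ t h, cc_neg _ (t - 1) (by omega), sub_zero]
  · subst h
    rw [cc_neg _ (0 - 1) (by omega)]
    cases r with
    | zero => simp [cc]
    | succ r => simp [cc]
  · obtain ⟨n, rfl⟩ : ∃ n : ℕ, t = (n : ℤ) + 1 := ⟨(t - 1).toNat, by omega⟩
    have h1 : ((n : ℤ) + 1).toNat = n + 1 := by omega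
    have h2 : ((n : ℤ) + 1 - 1).toNat = n := by omega
    cases r with
    | zero =>
      simp only [cc]
      rw [if_pos (by omega), if_pos (by omega), if_neg (by omega)]
      simp
    | succ r =>
      simp only [cc]
      rw [if_pos (by omega), if_pos (by omega), if_pos (by omega), h1, h2]
      have h3 : n + 1 + (r + 1) = (n + r + 1) + 1 := by ring
      have h4 : n + (r + 1) = n + r + 1 := by ring
      have h5 : n + 1 + r = n + r + 1 := by ring
      rw [h3, h4, h5, Nat.choose_succ_succ (n + r + 1) r]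
      push_cast
      ring

theorem ssum_sub (l : List ℕ) (F G : ℕ → ℕ → ℚ) :
    ssum l F - ssum l G = ssum l (fun s b => F s b - G s b) := by
  induction l generalizing F G with
  | nil => rfl
  | cons a l ih =>
    simp only [ssum]
    rw [← ih, ← ih]
    ring

theorem ssum_zero (l : List ℕ) : ssum l (fun _ _ => 0) = 0 := by
  induction l with
  | nil => rfl
  | cons a l ih =>
    simp only [ssum]
    rw [ih, sub_zero]

/-- the signed sum -/
def HH (r N : ℕ) (l : List ℕ) (t : ℤ) : ℚ :=
  ssum l (fun s b => cc r (t - (N : ℤ) * b - s))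

theorem HH_sub (r N : ℕ) (l : List ℕ) (t : ℤ) :
    HH (r + 1) N l t - HH (r + 1) N l (t - 1) = HH r N l t := by
  unfold HH
  rw [ssum_sub]
  congr 1
  funext s b
  rw [← cc_sub r (t - (N : ℤ) * b - s)]
  congr 2
  ring

theorem HH_cons (r N a : ℕ) (l : List ℕ) (t : ℤ) :
    HH r N (a :: l) t = HH r N l t - HH r N l (t - (N : ℤ) * a - 1) := by
  unfold HH
  simp only [ssum]
  congr 2
  funext s b
  congr 1
  push_cast
  ring

theorem HH_neg (r N : ℕ) (l : List ℕ) (t : ℤ) (h : t < 0) : HH r N l t = 0 := by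
  unfold HH
  rw [← ssum_zero l]
  congr 1
  funext s b
  apply cc_neg
  have h1 : 0 ≤ (N : ℤ) * b := by positivity
  omega

theorem hom_neg (l : List ℕ) : ∀ t : ℤ, t < 0 → hom l t = 0 := by
  induction l with
  | nil =>
    intro t h
    simp only [hom]
    rw [if_neg (by omega)]
  | cons a l ih =>
    intro t h
    simp only [hom]
    exact Finset.sum_eq_zero fun e _ => ih _ (by omega)

theorem hom_step (A : ℕ) (l : List ℕ) (t : ℤ) :
    hom (A :: l) t - hom (A :: l) (t - 1) = hom l t - hom l (t - A - 1) := by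
  simp only [hom]
  rw [← Finset.sum_sub_distrib]
  have h := Finset.sum_range_sub' (fun e : ℕ => hom l (t - e)) (A + 1)
  have h1 : ∀ e ∈ Finset.range (A + 1), hom l (t - (e : ℤ)) - hom l (t - 1 - (e : ℤ)) =
      hom l (t - (e : ℤ)) - hom l (t - ((e + 1 : ℕ) : ℤ)) := by
    intro e _
    congr 2
    push_cast
    ring
  rw [Finset.sum_congr rfl h1, h]
  congr 2
  · simp
  · push_cast
    ring

theorem hom_eq (N : ℕ) (l : List ℕ) : ∀ t : ℤ,
    ((hom (l.map (N * ·)) t : ℤ) : ℚ) = HH l.length N l t := by
  induction l with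
  | nil =>
    intro t
    unfold HH
    simp only [List.map_nil, hom, List.length_nil, ssum, cc]
    by_cases h : t = 0
    · subst h
      simp
    · rw [if_neg h, if_neg]
      · simp
      · intro h2
        apply h
        simpa using h2
  | cons a l ih =>
    have key : ∀ n : ℕ, ((hom ((a :: l).map (N * ·)) ((n : ℤ) - 1) : ℤ) : ℚ) =
        HH (a :: l).length N (a :: l) ((n : ℤ) - 1) := by
      intro n
      induction n with
      | zero =>
        rw [hom_neg _ _ (by simp), HH_neg _ _ _ _ (by simp)]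
        simp
      | succ n ihn =>
        have h1 := hom_step (N * a) (l.map (N * ·)) (n : ℤ)
        have h2 := HH_sub l.length N (a :: l) (n : ℤ)
        rw [HH_cons l.length N a l (n : ℤ), ← ih, ← ih] at h2
        have h3 : (((hom ((N * a) :: l.map (N * ·)) (n : ℤ) -
            hom ((N * a) :: l.map (N * ·)) ((n : ℤ) - 1) : ℤ)) : ℚ) =
            ((hom (l.map (N * ·)) (n : ℤ) - hom (l.map (N * ·)) ((n : ℤ) - ((N * a : ℕ) : ℤ) - 1)
              : ℤ) : ℚ) := by rw [h1]
        push_cast at h3 ihn h2 ⊢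
        rw [List.map_cons] at ihn ⊢
        rw [List.length_cons] at ihn ⊢
        rw [add_sub_cancel_right]
        linarith
    intro t
    rcases lt_or_ge t 0 with h | h
    · rw [hom_neg _ _ h, HH_neg _ _ _ _ h]
      simp
    · have h1 := key (t.toNat + 1)
      have h2 : ((t.toNat + 1 : ℕ) : ℤ) - 1 = t := by
        push_cast
        omega
      rw [h2] at h1
      exact h1

theorem t_CN2 : S_CN2 := by
  intro l N t hl
  obtain ⟨k, hk⟩ : ∃ k, l.length = k + 2 := ⟨l.length - 2, by omega⟩
  have h := HH_sub (k + 1) N l (t : ℤ)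
  have h1 := hom_eq N l (t : ℤ)
  have h2 := hom_eq N l ((t : ℤ) - 1)
  rw [hk] at h1 h2
  push_cast
  rw [h1, h2, h]
  unfold HH
  congr 1
  funext s b
  simp only [cc]
  rw [hk, Nat.add_sub_cancel]
  by_cases hc : N * b + s ≤ t
  · rw [if_pos hc, if_pos]
    · congr 3
      zify
      have h3 : (((t : ℤ) - (N : ℤ) * b - s).toNat : ℤ) = (t : ℤ) - (N : ℤ) * b - s := by
        apply Int.toNat_of_nonneg
        have : ((N * b + s : ℕ) : ℤ) ≤ t := by exact_mod_cast hc
        push_cast at this
        linarith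
      rw [h3, Nat.cast_sub (by omega), Nat.cast_sub (by omega)]
      push_cast
      ring
    · have : ((N * b + s : ℕ) : ℤ) ≤ t := by exact_mod_cast hc
      push_cast at this
      linarith
  · rw [if_neg hc, if_neg]
    intro h3
    apply hc
    have : ((N * b + s : ℕ) : ℤ) ≤ t := by
      push_cast
      linarith
    exact_mod_cast this

end Pool.Agent.Run7.h404.TK
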