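import Pool.Agent.Run7.h668.TK.Iface

/-!
# Piece WCO of the project TK: the coefficients of the insertion polynomial
-/

set_option autoImplicit false

namespace Pool.Agent.Run7.h404.TK

open Pool.Agent.Run7.h668.TK Polynomial

/-- the signed subset sum with values in a group -/
def gs {M : Type} [AddCommGroup M] : List ℕ → (ℕ → ℕ → M) → M
  | [], F => F 0 0
  | a :: l, F => gs l F - gs l (fun s b => F (s + 1) (b + a))

theorem gs_map {M : Type} [AddCommGroup M] (φ : M →+ ℚ) (l : List ℕ) (F : ℕ → ℕ → M) :
    φ (gs l F) = ssum l (fun s b => φ (F s b)) := by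
  induction l generalizing F with
  | nil => rfl
  | cons a l ih =>
    simp only [gs, ssum]
    rw [map_sub, ih, ih]

theorem gs_mul {R : Type} [CommRing R] (r : R) (l : List ℕ) (F : ℕ → ℕ → R) :
    r * gs l F = gs l (fun s b => r * F s b) := by
  induction l generalizing F with
  | nil => rfl
  | cons a l ih =>
    simp only [gs]
    rw [mul_sub, ih, ih]

/-- the embedding of the polynomials in `u` -/
noncomputable def emb (f : ℚ[X]) : ℚ[X][X] := f.map C

theorem coeff_opE (P : BB) (s : ℕ) : (opE P).coeff s = (s : ℚ[X][X]) * P.coeff s := by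
  unfold opE
  cases s with
  | zero => simp
  | succ s =>
    rw [coeff_X_mul, coeff_derivative]
    push_cast
    ring

theorem coeff_tt_mul (a : ℕ) (P : BB) (s : ℕ) :
    (tt 1 a * P).coeff s = if s = 0 then 0 else C (X ^ a) * P.coeff (s - 1) := by
  unfold tt
  rw [pow_one, mul_assoc]
  cases s with
  | zero => simp
  | succ s =>
    rw [coeff_X_mul, coeff_C_mul, if_neg (Nat.succ_ne_zero s), Nat.add_sub_cancel]

theorem coeff_ins (N a : ℕ) (P : BB) (s : ℕ) :
    (ins N a P).coeff s = (X + (N : ℚ[X][X]) - (s : ℚ[X][X])) * P.coeff s -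
      (if s = 0 then 0 else C (X ^ a) * (X - ((s - 1 : ℕ) : ℚ[X][X])) * P.coeff (s - 1)) := by
  have e : ins N a P = uu * P - uu * (tt 1 a * P) + (N : BB) * P - opE P + tt 1 a * opE P := by
    unfold ins
    ring
  have hN : ((N : BB) * P).coeff s = (N : ℚ[X][X]) * P.coeff s := by
    have : (N : BB) = C (N : ℚ[X][X]) := by simp
    rw [this, coeff_C_mul]
  rw [e, coeff_add, coeff_sub, coeff_add, coeff_sub, hN, coeff_opE, coeff_tt_mul, coeff_opE]
  unfold uu
  rw [coeff_C_mul, coeff_C_mul, coeff_tt_mul]
  by_cases hs : s = 0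
  · simp only [hs, if_true]
    ring
  · simp only [hs, if_false]
    ring

theorem fpoly_succ (n s : ℕ) (hn : 2 ≤ n) :
    fpoly (n + 1) s = fpoly n s * (X - C (s : ℚ) + C ((n : ℚ) - 1)) := by
  obtain ⟨k, rfl⟩ := Nat.exists_eq_add_of_le hn
  unfold fpoly
  have h1 : 2 + k + 1 - 2 = (2 + k - 2) + 1 := by omega
  rw [h1, Finset.prod_range_succ]
  congr 2
  congr 1
  have h2 : 2 + k - 2 = k := by omega
  rw [h2]
  push_cast
  ring

theorem fpoly_succ' (n s : ℕ) (hn : 2 ≤ n) :
    fpoly (n + 1) (s + 1) = (X - C (s : ℚ)) * fpoly n s := by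
  obtain ⟨k, rfl⟩ := Nat.exists_eq_add_of_le hn
  unfold fpoly
  have h1 : 2 + k + 1 - 2 = (2 + k - 2) + 1 := by omega
  rw [h1, Finset.prod_range_succ', mul_comm]
  congr 1
  · simp only [Nat.cast_add, Nat.cast_one, Nat.cast_zero, map_add, map_one, map_zero]
    ring
  · refine Finset.prod_congr rfl fun i _ => ?_
    simp only [Nat.cast_add, Nat.cast_one, map_add, map_one]
    ring

theorem coeff_tt (k c s : ℕ) : (tt k c).coeff s = if s = k then C (X ^ c) else 0 := by
  unfold tt
  rw [coeff_X_pow_mul']
  by_cases h : k ≤ s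
  · rw [if_pos h]
    by_cases h2 : s = k
    · rw [if_pos h2, h2, Nat.sub_self, coeff_C_zero]
    · rw [if_neg h2, coeff_C_of_ne_zero (by omega)]
  · rw [if_neg h, if_neg (by omega)]

theorem base_eq (c c' : ℕ) : (1 - tt 1 c) * (1 - tt 1 c') =
    tt 0 0 - tt 1 c' - (tt 1 c - tt 2 (c' + c)) := by
  have h1 : tt 1 c * tt 1 c' = tt 2 (c' + c) := by
    unfold tt
    rw [pow_add, map_mul, map_mul]
    ring
  have h0 : tt 0 0 = 1 := by
    unfold tt
    simp
  rw [h0, ← h1]
  ring

theorem coeff_WW (c c' : ℕ) (l : List ℕ) (s0 : ℕ) :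
    (WW c c' l).coeff s0 = gs (l ++ [c, c'])
      (fun s b => if s = s0 then C (X ^ b) * emb (fpoly (l.length + 2) s) else 0) := by
  induction l generalizing s0 with
  | nil =>
    have hf : ∀ s, emb (fpoly (([] : List ℕ).length + 2) s) = 1 := by
      intro s
      unfold fpoly emb
      simp
    simp only [hf, mul_one, WW, List.nil_append, gs]
    rw [base_eq, coeff_sub, coeff_sub, coeff_sub, coeff_tt, coeff_tt, coeff_tt, coeff_tt]
    simp only [zero_add, eq_comm (a := s0), Nat.reduceAdd]
  | cons a l ih =>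
    have h2 : 2 ≤ l.length + 2 := by omega
    have hA : ∀ s, emb (fpoly (l.length + 2 + 1) s) =
        (X + ((l.length + 1 : ℕ) : ℚ[X][X]) - (s : ℚ[X][X])) * emb (fpoly (l.length + 2) s) := by
      intro s
      rw [fpoly_succ _ _ h2]
      unfold emb
      rw [Polynomial.map_mul, mul_comm]
      congr 1
      have h5 : ((l.length + 2 : ℕ) : ℚ) - 1 = ((l.length + 1 : ℕ) : ℚ) := by
        push_cast
        ring
      rw [h5, Polynomial.C_eq_natCast, Polynomial.C_eq_natCast, Polynomial.map_add,
        Polynomial.map_sub, Polynomial.map_X, Polynomial.map_natCast, Polynomial.map_natCast]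
      ring
    have hB : ∀ s, emb (fpoly (l.length + 2 + 1) (s + 1)) =
        (X - (s : ℚ[X][X])) * emb (fpoly (l.length + 2) s) := by
      intro s
      rw [fpoly_succ' _ _ h2]
      unfold emb
      rw [Polynomial.map_mul]
      congr 1
      simp
    have e : WW c c' (a :: l) = ins (l.length + 1) a (WW c c' l) := rfl
    rw [e, coeff_ins, List.cons_append]
    simp only [gs]
    rw [ih, gs_mul]
    congr 1
    · congr 1
      funext s b
      by_cases hs : s = s0
      · rw [if_pos hs, if_pos hs, List.length_cons,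
          show l.length + 1 + 2 = l.length + 2 + 1 from rfl, hA, hs]
        ring
      · rw [if_neg hs, if_neg hs, mul_zero]
    · by_cases h0 : s0 = 0
      · rw [if_pos h0]
        have hz : (fun s b => if s + 1 = s0 then C (X ^ (b + a)) *
            emb (fpoly ((a :: l).length + 2) (s + 1)) else (0 : ℚ[X][X])) = fun _ _ => 0 * 0 := by
          funext s b
          rw [if_neg (by omega), mul_zero]
        rw [hz, ← gs_mul, zero_mul]
      · rw [if_neg h0, ih, gs_mul]
        congr 1
        funext s b
        by_cases hs : s + 1 = s0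
        · have hs' : s = s0 - 1 := by omega
          rw [if_pos hs, if_pos hs', List.length_cons,
            show l.length + 1 + 2 = l.length + 2 + 1 from rfl, hB, ← hs', pow_add, map_mul]
          ring
        · rw [if_neg hs, if_neg (by omega), mul_zero]

theorem t_WCO : S_WCO := by
  intro c c' l s0 m b0
  rw [coeff_WW]
  let φ : ℚ[X][X] →+ ℚ :=
    { toFun := fun f => (f.coeff m).coeff b0
      map_zero' := by simp
      map_add' := fun f g => by simp }
  change φ _ = _
  rw [gs_map]
  congr 1
  funext s b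
  change ((if s = s0 then C (X ^ b) * emb (fpoly (l.length + 2) s) else 0 : ℚ[X][X]).coeff
    m).coeff b0 = _
  by_cases hs : s = s0
  · rw [if_pos hs, coeff_C_mul]
    unfold emb
    rw [coeff_map, coeff_mul_C, coeff_X_pow]
    by_cases hb : b = b0
    · rw [if_pos hb.symm, if_pos ⟨hs, hb⟩, one_mul]
    · rw [if_neg (fun h => hb h.symm), if_neg (fun h => hb h.2), zero_mul]
  · rw [if_neg hs, if_neg (fun h => hs h.1)]
    simp

end Pool.Agent.Run7.h404.TK
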